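import Pool.Agent.helper60.XP.SpecT

set_option autoImplicit false

open Complex Metric Set Filter Topology MeasureTheory
open V3S (UF)
open XP

noncomputable section

namespace XPT

theorem DIR : DIR_stmt := by
  intro ζ hζ ε hε
  have hmem : ∀ n : ℕ, (fun n : ℕ => ζ ^ n) n ∈ closedBall (0 : ℂ) 1 := by
    intro n
    simp [hζ]
  obtain ⟨a, -, φ, hφ, ht⟩ := (isCompact_closedBall (0 : ℂ) 1).tendsto_subseq hmem
  have hc : CauchySeq ((fun n : ℕ => ζ ^ n) ∘ φ) := ht.cauchySeq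
  obtain ⟨M, hM⟩ := Metric.cauchySeq_iff.1 hc ε hε
  have h1 := hM (M + 1) (by omega) M (by omega)
  have hlt : φ M < φ (M + 1) := hφ (by omega)
  refine ⟨φ (M + 1) - φ M, by omega, ?_⟩
  have h2 : ζ ^ φ (M + 1) - ζ ^ φ M = ζ ^ φ M * (ζ ^ (φ (M + 1) - φ M) - 1) := by
    rw [mul_sub, mul_one, ← pow_add]
    congr 2
    omega
  have h3 : ‖ζ ^ φ (M + 1) - ζ ^ φ M‖ < ε := by
    simpa [dist_eq_norm] using h1
  rw [h2, norm_mul, norm_pow, hζ, one_pow, one_mul] at h3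
  exact h3.le

end XPT
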