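import Pool.Agent.helper54.XP.SpecG

set_option autoImplicit false

open Complex Metric Set Filter Topology MeasureTheory XP
open V3S (UF)

noncomputable section

namespace XPG

theorem GF2_deriv (v : ℂ → ℂ) (hv : Differentiable ℂ v) : Differentiable ℂ (deriv v) := by
  have h := hv.differentiableOn (s := (univ : Set ℂ))
  have := h.deriv isOpen_univ
  exact differentiableOn_univ.1 this

theorem GF2 (hLOA : LOA_stmt) (hGTH : GTH_stmt) (hGMS : GMS_stmt) (hGEN : GEN_stmt) (hEN2 : EN2_stmt)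
    (hLPI : XPL.LPI_stmt) : GF2_stmt := by
  intro n C C' C'' D a₀ a₁ hG hC
  have hLA : LA C D := hLOA n C C' C'' D hG
  obtain ⟨θ, hθ, htθ⟩ := hGTH n C C' C'' D hG
  obtain ⟨-, -, -, hcl, hct, -, -⟩ := hLPI n C D hG.hl.seq
  have hC1 := hLA.C1
  have hc : 0 < 1 / (8 * C) := by positivity
  have hvd := hLA.vdiff
  have hv' := GF2_deriv _ hvd
  set q : ℂ → ℂ := fun x => vin D x * a₁ + 2 * deriv (vin D) x * (a₀ + a₁ * x) with hq
  have hqd : Differentiable ℂ q := by
    rw [hq]
    fun_prop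
  have hqB : ∀ x ∉ Pin D, q x = vin D x * deriv (Bin D) x + 2 * deriv (vin D) x * Bin D x := by
    intro x hx
    have hopen : (Pin D)ᶜ ∈ 𝓝 x := hcl.isOpen_compl.mem_nhds hx
    have hev : Bin D =ᶠ[𝓝 x] fun y => a₀ + a₁ * y := by
      filter_upwards [hopen] with y hy
      exact hC.aff y hy
    have hd : deriv (Bin D) x = a₁ := by
      rw [hev.deriv_eq]
      have : HasDerivAt (fun y : ℂ => a₀ + a₁ * y) a₁ x := by
        have h1 := ((hasDerivAt_id x).const_mul a₁).const_add a₀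
        simpa using h1
      exact this.deriv
    rw [hd, hC.aff x hx]
  have hen : ∀ e > (0 : ℝ), ∫ x in ball (0 : ℂ) (1 / (8 * C)), V3.En θ (Bin D) q x ≤ e := by
    intro e he
    have hev : ∀ᶠ m in UF, (D m).s * (D m).E ≤ e * ‖(D m).lam‖ := by
      have hC' := hG.sa.C1
      have h1 : ∀ᶠ m in UF, (D m).s < e / C' :=
        hC.s0.eventually_lt_const (by positivity)
      filter_upwards [h1] with m hm
      have h2 := hG.sa.El m
      have h3 := hG.hl.par.s0 m
      have h4 : (D m).s * (D m).E ≤ (D m).s * (C' * ‖(D m).lam‖) := mul_le_mul_of_nonneg_left h2 h3.le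
      have h5 : (D m).s * C' ≤ e := by
        rw [lt_div_iff₀ (by positivity)] at hm
        exact hm.le
      calc (D m).s * (D m).E ≤ (D m).s * (C' * ‖(D m).lam‖) := h4
        _ = ((D m).s * C') * ‖(D m).lam‖ := by ring
        _ ≤ e * ‖(D m).lam‖ := mul_le_mul_of_nonneg_right h5 (norm_nonneg _)
    have h6 := hGEN n C C' C'' D q θ hG hLA hqd hqB hθ htθ e he.le hev (1 / (8 * C)) (ball 0 (1 / (8 * C))) 1
      isOpen_ball (subset_refl _) (by
        filter_upwards [hGMS n C C' C'' D hG hLA] with m hm z J hJ1 hJ2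
        exact hm z J hJ1 hJ2)
    simpa using h6
  have hen0 : ∫ x in ball (0 : ℂ) (1 / (8 * C)), V3.En θ (Bin D) q x ≤ 0 := by
    by_contra hcon
    push Not at hcon
    have := hen ((∫ x in ball (0 : ℂ) (1 / (8 * C)), V3.En θ (Bin D) q x) / 2) (by linarith)
    linarith
  have hae : ∫ x in ball (0 : ℂ) (1 / (8 * C)), V3.En θ (fun x => a₀ + a₁ * x) q x =
      ∫ x in ball (0 : ℂ) (1 / (8 * C)), V3.En θ (Bin D) q x := by
    apply integral_congr_ae
    apply ae_restrict_of_ae
    filter_upwards [hct.ae_notMem (volume : Measure ℂ)] with x hx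
    unfold V3.En
    rw [hC.aff x hx]
  have hz := hLA.vzero 0 hLA.P0
  have hfin := hEN2 (vin D) a₀ a₁ θ (1 / (8 * C)) hvd hz.1 hz.2 hC.nz hθ hc (by rw [hae]; exact hen0)
  obtain ⟨x, -, hx⟩ := hLA.far
  rw [hfin x, sub_self, norm_zero] at hx
  norm_num at hx

end XPG
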